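import Pool.Agent.H21.EE.Conv

set_option autoImplicit false

open Filter Topology Pool.H21.EE

namespace Pool.Agent.Results.MP_105f6a_gt.EnvelopeEquality

theorem result (E : Type) [NormedAddCommGroup E] [InnerProductSpace ℝ E] [FiniteDimensional ℝ E]
    (K T : Set E) (hK : Body K) (hT : Body T) :
    Tendsto (fun m => Metric.hausdorffDist (step^[m] (K, T)).1 (G K T)) atTop (𝓝 0) ∧
    Tendsto (fun m => Metric.hausdorffDist (step^[m] (K, T)).2 (G K T)) atTop (𝓝 0) ∧
    ((lower K T = G K T ∧ G K T = upper K T) ↔ Decomposes K T) :=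
  main K T hK hT

end Pool.Agent.Results.MP_105f6a_gt.EnvelopeEquality
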